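import Pool.Agent.Lib.QU53.Transfer

/-!
# The local ring along the special fibre is regular of the same dimension (cell (e) of HighRank)
-/

set_option autoImplicit false

namespace Pool.Agent.QU52

open IsLocalRing QU53

universe u

theorem fibre_regular {S : Type u} [CommRing S] [IsRegularLocalRing S] {d : ℕ}
    (hd : ringKrullDim S = d) (n : ℕ)
    [((maximalIdeal S).map (MvPowerSeries.C (σ := Fin n) (R := S))).IsPrime] :
    IsNoetherianRing (Localization.AtPrime
        ((maximalIdeal S).map (MvPowerSeries.C (σ := Fin n) (R := S)))) ∧
      IsRegularLocalRing (Localization.AtPrime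
        ((maximalIdeal S).map (MvPowerSeries.C (σ := Fin n) (R := S)))) ∧
      ringKrullDim (Localization.AtPrime
        ((maximalIdeal S).map (MvPowerSeries.C (σ := Fin n) (R := S)))) = d := by
  have hnoeth : IsNoetherianRing (Localization.AtPrime
      ((maximalIdeal S).map (MvPowerSeries.C (σ := Fin n) (R := S)))) :=
    IsLocalization.isNoetherianRing
      ((maximalIdeal S).map (MvPowerSeries.C (σ := Fin n) (R := S))).primeCompl _ inferInstance
  obtain ⟨h1, h2⟩ := regular_special S n
  exact ⟨hnoeth, h1, h2.trans hd⟩

end Pool.Agent.QU52
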