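import Pool.Agent.Lib.QU53.Main

/-!
# The local ring of a three-dimensional base along the special fibre
-/

set_option autoImplicit false

namespace Pool.Agent.QU52

open IsLocalRing Pool.Agent.QU53

universe u

/-- Divisibility modulo `u`. -/
theorem mk_dvd_iff {K : Type u} [CommRing K] (u x a : K) :
    Ideal.Quotient.mk (Ideal.span {u}) x ∣ Ideal.Quotient.mk (Ideal.span {u}) a ↔
      a ∈ Ideal.span {u, x} := by
  rw [Ideal.mem_span_pair]
  constructor
  · rintro ⟨c, hc⟩
    obtain ⟨c, rfl⟩ := Ideal.Quotient.mk_surjective c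
    rw [← map_mul, Ideal.Quotient.eq, Ideal.mem_span_singleton'] at hc
    obtain ⟨t, ht⟩ := hc
    exact ⟨t, c, by linear_combination ht⟩
  · rintro ⟨t, c, rfl⟩
    refine ⟨Ideal.Quotient.mk _ c, ?_⟩
    rw [← map_mul, Ideal.Quotient.eq, Ideal.mem_span_singleton']
    exact ⟨t, by ring⟩

/-- Prime elements modulo `u`. -/
theorem prime_mk {K : Type u} [CommRing K] {u x : K} (hI : (Ideal.span {u, x}).IsPrime)
    (hx : x ∉ Ideal.span {u}) : Prime (Ideal.Quotient.mk (Ideal.span {u}) x) := by
  refine ⟨fun h => hx (Ideal.Quotient.eq_zero_iff_mem.1 h), fun h => ?_, ?_⟩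
  · rw [isUnit_iff_dvd_one, ← map_one (Ideal.Quotient.mk (Ideal.span {u})), mk_dvd_iff] at h
    exact hI.ne_top ((Ideal.eq_top_iff_one _).2 h)
  · intro a b hab
    obtain ⟨a, rfl⟩ := Ideal.Quotient.mk_surjective a
    obtain ⟨b, rfl⟩ := Ideal.Quotient.mk_surjective b
    rw [← map_mul, mk_dvd_iff] at hab
    rw [mk_dvd_iff, mk_dvd_iff]
    exact hI.mem_or_mem hab

/-- Primes below the localised prime. -/
theorem loc_prime {R : Type u} [CommRing R] (q : Ideal R) [q.IsPrime] (K : Type u) [CommRing K]
    [Algebra R K] [IsLocalization.AtPrime K q] (I : Ideal R) (hIp : I.IsPrime) (hI : I ≤ q) :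
    (I.map (algebraMap R K)).IsPrime ∧
      ∀ a, algebraMap R K a ∈ I.map (algebraMap R K) → a ∈ I := by
  have hdisj : Disjoint (q.primeCompl : Set R) (I : Set R) := by
    rw [Set.disjoint_left]
    intro f hf hf2
    exact hf (hI hf2)
  refine ⟨IsLocalization.isPrime_of_isPrime_disjoint q.primeCompl K _ hIp hdisj, fun a ha => ?_⟩
  have h1 := IsLocalization.under_map_of_isPrime_disjoint q.primeCompl K hIp hdisj
  rw [← h1]
  exact ha

/-- Regular parameters in dimension three, the first of which is given. -/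
theorem exists_rxy {S : Type u} [CommRing S] [IsRegularLocalRing S] (hd : ringKrullDim S = 3)
    (r : S) (hr : r ∈ maximalIdeal S) (hr2 : r ∉ maximalIdeal S ^ 2) :
    ∃ x y : S, maximalIdeal S = Ideal.span {r, x, y} ∧ Prime r ∧ (Ideal.span {r, x}).IsPrime ∧
      x ∉ Ideal.span {r} ∧ y ∉ Ideal.span {r, x} := by
  have hdomS : IsDomain S := BEH5.Reg.isDomain_of_regular 3 S (by exact_mod_cast hd)
  obtain ⟨hreg, hdim⟩ := BEH5.Reg.quot_regular (n := 2) (by exact_mod_cast hd) hr hr2
  have hdom1 : IsDomain (S ⧸ Ideal.span {r}) := BEH5.Reg.isDomain_of_regular 2 _ hdim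
  obtain ⟨x, y, hx, hxy⟩ := exists_xy (S := S ⧸ Ideal.span {r}) 2 hdim (by norm_num) le_rfl
  obtain ⟨x, rfl⟩ := Ideal.Quotient.mk_surjective x
  obtain ⟨y, rfl⟩ := Ideal.Quotient.mk_surjective y
  have hr0 : r ≠ 0 := by
    rintro rfl
    exact hr2 (Ideal.zero_mem _)
  have hrp : Prime r :=
    (Ideal.span_singleton_prime hr0).1 ((Ideal.Quotient.isDomain_iff_prime _).1 hdom1)
  refine ⟨x, y, ?_, hrp, ?_, ?_, ?_⟩
  · apply le_antisymm
    · intro a ha
      have h1 : Ideal.Quotient.mk (Ideal.span {r}) a ∈ maximalIdeal (S ⧸ Ideal.span {r}) := by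
        rw [mem_maximalIdeal, mem_nonunits_iff]
        intro hu
        obtain ⟨b, hb⟩ := hu.exists_right_inv
        obtain ⟨b, rfl⟩ := Ideal.Quotient.mk_surjective b
        rw [← map_mul, ← map_one (Ideal.Quotient.mk (Ideal.span {r})), Ideal.Quotient.eq] at hb
        have h2 : a * b - 1 ∈ maximalIdeal S :=
          (Ideal.span_singleton_le_iff_mem _).2 hr hb
        have h3 : (1 : S) ∈ maximalIdeal S := by
          have h4 := sub_mem ((maximalIdeal S).mul_mem_right b ha) h2
          rwa [sub_sub_cancel] at h4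
        exact (Ideal.ne_top_iff_one _).1 (maximalIdeal.isMaximal S).ne_top h3
      rw [hxy, Ideal.mem_span_pair] at h1
      obtain ⟨c, d, hcd⟩ := h1
      obtain ⟨c, rfl⟩ := Ideal.Quotient.mk_surjective c
      obtain ⟨d, rfl⟩ := Ideal.Quotient.mk_surjective d
      rw [← map_mul, ← map_mul, ← map_add, Ideal.Quotient.eq, Ideal.mem_span_singleton'] at hcd
      obtain ⟨t, ht⟩ := hcd
      have h5 : a = (-t) * r + c * x + d * y := by linear_combination ht
      rw [h5]
      refine add_mem (add_mem ?_ ?_) ?_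
      · exact Ideal.mul_mem_left _ _ (Ideal.subset_span (by simp))
      · exact Ideal.mul_mem_left _ _ (Ideal.subset_span (by simp))
      · exact Ideal.mul_mem_left _ _ (Ideal.subset_span (by simp))
    · have h6 : ∀ a : S, Ideal.Quotient.mk (Ideal.span {r}) a ∈ maximalIdeal (S ⧸ Ideal.span {r}) →
          a ∈ maximalIdeal S := by
        intro a ha
        rw [mem_maximalIdeal, mem_nonunits_iff] at ha ⊢
        exact fun hu => ha (hu.map _)
      rw [Ideal.span_le]
      intro a ha
      rw [Set.mem_insert_iff, Set.mem_insert_iff, Set.mem_singleton_iff] at ha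
      rcases ha with rfl | rfl | rfl
      · exact hr
      · refine h6 _ ?_
        rw [hxy]
        exact Ideal.subset_span (by simp)
      · refine h6 _ ?_
        rw [hxy]
        exact Ideal.subset_span (by simp)
  · refine ⟨fun h => ?_, fun {a b} hab => ?_⟩
    · rw [Ideal.eq_top_iff_one, ← mk_dvd_iff, map_one, ← isUnit_iff_dvd_one] at h
      exact hx.not_isUnit h
    · rw [← mk_dvd_iff, map_mul] at hab
      rw [← mk_dvd_iff, ← mk_dvd_iff]
      exact hx.dvd_or_dvd hab
  · intro h
    exact hx.ne_zero (Ideal.Quotient.eq_zero_iff_mem.2 h)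
  · intro h
    rw [← mk_dvd_iff] at h
    have h1 : maximalIdeal (S ⧸ Ideal.span {r}) =
        Ideal.span {Ideal.Quotient.mk (Ideal.span {r}) x} := by
      rw [hxy]
      apply le_antisymm
      · rw [Ideal.span_le]
        intro a ha
        rw [Set.mem_insert_iff, Set.mem_singleton_iff] at ha
        rcases ha with rfl | rfl
        · exact Ideal.mem_span_singleton_self _
        · exact Ideal.mem_span_singleton.2 h
      · exact Ideal.span_mono (by simp)
    have h2 : (maximalIdeal (S ⧸ Ideal.span {r})).spanFinrank ≤ 1 := by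
      rw [h1]
      exact (Submodule.spanFinrank_span_le_ncard_of_finite (Set.finite_singleton _)).trans
        (Set.ncard_singleton _).le
    have h3 := IsRegularLocalRing.spanFinrank_maximalIdeal (R := S ⧸ Ideal.span {r})
    rw [hdim] at h3
    have h4 : (maximalIdeal (S ⧸ Ideal.span {r})).spanFinrank = 2 := by exact_mod_cast h3
    omega

/-- The local ring along the special fibre over a three-dimensional regular local ring. -/
theorem fibre_local {S : Type u} [CommRing S] [IsRegularLocalRing S] (hd : ringKrullDim S = 3)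
    (n : ℕ) [((maximalIdeal S).map (MvPowerSeries.C (σ := Fin n) (R := S))).IsPrime] (r : S)
    (hr : r ∈ maximalIdeal S) (hr2 : r ∉ maximalIdeal S ^ 2)
    (K : Type u) [CommRing K] [Algebra (MvPowerSeries (Fin n) S) K]
    [IsLocalization.AtPrime K ((maximalIdeal S).map (MvPowerSeries.C (σ := Fin n) (R := S)))] :
    ∃ x y : K, Prime (algebraMap (MvPowerSeries (Fin n) S) K (MvPowerSeries.C r)) ∧
      Prime (Ideal.Quotient.mk (Ideal.span {algebraMap (MvPowerSeries (Fin n) S) K
        (MvPowerSeries.C r)}) x) ∧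
      ¬ Ideal.Quotient.mk (Ideal.span {algebraMap (MvPowerSeries (Fin n) S) K
        (MvPowerSeries.C r)}) x ∣ Ideal.Quotient.mk (Ideal.span {algebraMap
          (MvPowerSeries (Fin n) S) K (MvPowerSeries.C r)}) y ∧
      Ideal.map (algebraMap (MvPowerSeries (Fin n) S) K)
        ((maximalIdeal S).map (MvPowerSeries.C (σ := Fin n) (R := S))) =
        Ideal.span {algebraMap (MvPowerSeries (Fin n) S) K (MvPowerSeries.C r), x, y} := by
  obtain ⟨x, y, hm, hrp, hI, hx, hy⟩ := exists_rxy hd r hr hr2
  have hdomS : IsDomain S := BEH5.Reg.isDomain_of_regular 3 S (by exact_mod_cast hd)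
  set q := (maximalIdeal S).map (MvPowerSeries.C (σ := Fin n) (R := S)) with hq
  -- the two primes of the power series ring
  have hP1 : (Ideal.span {MvPowerSeries.C (σ := Fin n) r}).IsPrime :=
    (Ideal.span_singleton_prime (prime_C hrp n).ne_zero).2 (prime_C hrp n)
  have hP2 : (Ideal.span {MvPowerSeries.C (σ := Fin n) r, MvPowerSeries.C (σ := Fin n) x}).IsPrime := by
    have := prime_mapC (Ideal.span {r, x}) n
    rwa [Ideal.map_span, Set.image_insert_eq, Set.image_singleton] at this
  have hrq : MvPowerSeries.C (σ := Fin n) r ∈ q := Ideal.mem_map_of_mem _ hr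
  have hxm : x ∈ maximalIdeal S := by
    rw [hm]
    exact Ideal.subset_span (by simp)
  have hxq : MvPowerSeries.C (σ := Fin n) x ∈ q := Ideal.mem_map_of_mem _ hxm
  obtain ⟨hK1, hK1'⟩ := loc_prime q K _ hP1 ((Ideal.span_singleton_le_iff_mem _).2 hrq)
  obtain ⟨hK2, hK2'⟩ := loc_prime q K _ hP2 (by
    rw [Ideal.span_le]
    intro a ha
    rw [Set.mem_insert_iff, Set.mem_singleton_iff] at ha
    rcases ha with rfl | rfl
    · exact hrq
    · exact hxq)
  rw [Ideal.map_span, Set.image_singleton] at hK1 hK1'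
  rw [Ideal.map_span, Set.image_insert_eq, Set.image_singleton] at hK2 hK2'
  have hR : IsDomain (MvPowerSeries (Fin n) S) := isDomain_mv S n
  have hne : algebraMap (MvPowerSeries (Fin n) S) K (MvPowerSeries.C r) ≠ 0 := by
    intro h
    have hinj : Function.Injective (algebraMap (MvPowerSeries (Fin n) S) K) :=
      IsLocalization.injective K (Ideal.primeCompl_le_nonZeroDivisors q)
    apply (prime_C hrp n).ne_zero
    apply hinj
    rw [h, map_zero]
  have hCx : ∀ (I : Ideal S) (a : S), MvPowerSeries.C (σ := Fin n) a ∈ I.map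
      (MvPowerSeries.C (σ := Fin n) (R := S)) → a ∈ I := by
    intro I a ha
    rw [mem_mapC, MvPowerSeries.map_C] at ha
    have h1 := congrArg (MvPowerSeries.constantCoeff) ha
    rw [MvPowerSeries.constantCoeff_C, map_zero] at h1
    exact Ideal.Quotient.eq_zero_iff_mem.1 h1
  refine ⟨algebraMap (MvPowerSeries (Fin n) S) K (MvPowerSeries.C x),
    algebraMap (MvPowerSeries (Fin n) S) K (MvPowerSeries.C y),
    (Ideal.span_singleton_prime hne).1 hK1, prime_mk hK2 ?_, ?_, ?_⟩
  · intro h
    have h1 := hK1' _ h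
    apply hx
    apply hCx
    rwa [Ideal.map_span, Set.image_singleton]
  · rw [mk_dvd_iff]
    intro h
    have h1 := hK2' _ h
    apply hy
    apply hCx
    rwa [Ideal.map_span, Set.image_insert_eq, Set.image_singleton]
  · rw [hq, hm, Ideal.map_span, Ideal.map_span]
    simp only [Set.image_insert_eq, Set.image_singleton]

/-- Projective modules over the local ring along the special fibre, from the three-dimensional
theorem. -/
theorem special_fibre_three_of {S : Type u} [CommRing S] [IsRegularLocalRing S]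
    (hd : ringKrullDim S = 3) (n : ℕ)
    [((maximalIdeal S).map (MvPowerSeries.C (σ := Fin n) (R := S))).IsPrime] (r : S)
    (hr : r ∈ maximalIdeal S) (hr2 : r ∉ maximalIdeal S ^ 2)
    (hG3 : ∀ (K : Type u) [CommRing K] [IsDomain K] [IsNoetherianRing K] [IsLocalRing K]
      (u x y : K) (_ : Prime u) (_ : Prime (Ideal.Quotient.mk (Ideal.span {u}) x))
      (_ : ¬ Ideal.Quotient.mk (Ideal.span {u}) x ∣ Ideal.Quotient.mk (Ideal.span {u}) y)
      (_ : maximalIdeal K = Ideal.span {u, x, y}), PF (Localization.Away u)) :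
    PF (Localization.Away (algebraMap (MvPowerSeries (Fin n) S)
      (Localization.AtPrime ((maximalIdeal S).map (MvPowerSeries.C (σ := Fin n) (R := S))))
      (MvPowerSeries.C r))) := by
  have hdomS : IsDomain S := BEH5.Reg.isDomain_of_regular 3 S (by exact_mod_cast hd)
  have hR : IsDomain (MvPowerSeries (Fin n) S) := isDomain_mv S n
  have hM : ((maximalIdeal S).map (MvPowerSeries.C (σ := Fin n) (R := S))).primeCompl ≤
      nonZeroDivisors (MvPowerSeries (Fin n) S) := Ideal.primeCompl_le_nonZeroDivisors _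
  have hdom : IsDomain (Localization.AtPrime
      ((maximalIdeal S).map (MvPowerSeries.C (σ := Fin n) (R := S)))) :=
    IsLocalization.isDomain_localization hM
  have hnoeth : IsNoetherianRing (Localization.AtPrime
      ((maximalIdeal S).map (MvPowerSeries.C (σ := Fin n) (R := S)))) :=
    IsLocalization.isNoetherianRing
      ((maximalIdeal S).map (MvPowerSeries.C (σ := Fin n) (R := S))).primeCompl _ inferInstance
  obtain ⟨x, y, h1, h2, h3, h4⟩ := fibre_local hd n r hr hr2 (Localization.AtPrime
      ((maximalIdeal S).map (MvPowerSeries.C (σ := Fin n) (R := S))))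
  refine hG3 _ _ x y h1 h2 h3 ?_
  rw [← h4]
  exact (IsLocalization.AtPrime.map_eq_maximalIdeal _ _).symm

/-- A three-dimensional base and a regular parameter, from the three-dimensional theorem. -/
theorem three_dim_of {S : Type u} [CommRing S] [IsRegularLocalRing S]
    [IsAdicComplete (maximalIdeal S) S] (hd : ringKrullDim S = 3) (n : ℕ) (r : S)
    (hr : r ∈ maximalIdeal S) (hr2 : r ∉ maximalIdeal S ^ 2)
    (hG3 : ∀ (K : Type u) [CommRing K] [IsDomain K] [IsNoetherianRing K] [IsLocalRing K]
      (u x y : K) (_ : Prime u) (_ : Prime (Ideal.Quotient.mk (Ideal.span {u}) x))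
      (_ : ¬ Ideal.Quotient.mk (Ideal.span {u}) x ∣ Ideal.Quotient.mk (Ideal.span {u}) y)
      (_ : maximalIdeal K = Ideal.span {u, x, y}), PF (Localization.Away u)) :
    PF (Localization.Away (MvPowerSeries.C r : MvPowerSeries (Fin n) S)) := by
  have hdom : IsDomain S := BEH5.Reg.isDomain_of_regular 3 S (by exact_mod_cast hd)
  have hp : ((maximalIdeal S).map (MvPowerSeries.C (σ := Fin n) (R := S))).IsPrime :=
    prime_mapC _ n
  have hr0 : r ≠ 0 := by
    rintro rfl
    exact hr2 (Ideal.zero_mem _)
  exact reduction r hr0 n (special_fibre_three_of hd n r hr hr2 hG3)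

end Pool.Agent.QU52
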