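import Pool.Agent.Lib.QU62.A1

/-!
# The relations of a height two ideal over a two-dimensional ring
-/

set_option autoImplicit false

namespace Pool.Agent.QU62

open IsLocalRing

universe u

namespace Two

variable {R : Type u} [CommRing R] [IsDomain R] [IsNoetherianRing R] [IsLocalRing R] {x y : R}

/-- The kernel of a linear form over a two-dimensional ring is free. -/
theorem ker_free (h : Two R x y) {m : ℕ} (l : (Fin m → R) →ₗ[R] R) :
    Module.Free R (LinearMap.ker l) := by
  refine h.free (X := LinearMap.ker l) ?_ ?_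
  · intro v hv
    exact (smul_eq_zero.1 hv).resolve_left h.px.ne_zero
  · intro f g hfg
    have h1 : ∀ i, ∃ c, (f : Fin m → R) i = x * c := by
      intro i
      have h2 : y * (f : Fin m → R) i = x * (g : Fin m → R) i :=
        congrFun (congrArg Subtype.val hfg) i
      exact (h.px.dvd_or_dvd ⟨_, h2⟩).resolve_left h.ndvd
    choose c hc using h1
    have hf : (f : Fin m → R) = x • c := funext hc
    have hc0 : l c = 0 := by
      have h3 : l (x • c) = 0 := by
        rw [← hf]
        exact f.2
      rw [map_smul, smul_eq_mul] at h3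
      exact (mul_eq_zero.1 h3).resolve_left h.px.ne_zero
    exact ⟨⟨c, hc0⟩, Subtype.ext hf⟩

/-- The relations between generators of an ideal of height two: a free basis of the relations, and
the generators are, up to one unit, the minors. -/
theorem hb (h : Two R x y) {b : ℕ} (l : (Fin (b + 1) → R) →ₗ[R] R) {N : ℕ}
    (hx : x ^ N ∈ LinearMap.range l) (hy : y ^ N ∈ LinearMap.range l) :
    ∃ (z : Fin b → Fin (b + 1) → R) (β : R), IsUnit β ∧ (∀ j, l (z j) = 0) ∧
      (∀ v, l v = 0 → v ∈ Submodule.span R (Set.range z)) ∧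
      ∀ v, Matrix.det (Matrix.of (Fin.snoc z v : Fin (b + 1) → Fin (b + 1) → R)) = β * l v := by
  classical
  have hfree := h.ker_free l
  have hx0 : x ^ N ≠ 0 := pow_ne_zero _ h.px.ne_zero
  have hrank : Module.finrank R (LinearMap.ker l) = b := by
    have h1 : Module.finrank R (LinearMap.range l) + Module.finrank R (LinearMap.ker l) =
        b + 1 := by
      have h0 := LinearMap.rank_range_add_rank_ker l
      rw [← Module.finrank_eq_rank, ← Module.finrank_eq_rank, ← Module.finrank_eq_rank,
        Module.finrank_pi, Fintype.card_fin] at h0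
      exact_mod_cast h0
    have h2 : Module.finrank R (LinearMap.range l) ≤ 1 := by
      have := Submodule.finrank_le (LinearMap.range l)
      rwa [Module.finrank_self] at this
    have h3 : 0 < Module.finrank R (LinearMap.range l) := by
      rw [Module.finrank_pos_iff_exists_ne_zero]
      exact ⟨⟨x ^ N, hx⟩, fun h0 => hx0 (congrArg Subtype.val h0)⟩
    omega
  let B := Module.finBasisOfFinrankEq R (LinearMap.ker l) hrank
  let z : Fin b → Fin (b + 1) → R := fun j => (B j : Fin (b + 1) → R)
  have hz : ∀ j, l (z j) = 0 := fun j => (B j).2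
  have hspan : ∀ v, l v = 0 → v ∈ Submodule.span R (Set.range z) := by
    intro v hv
    have h1 : (⟨v, hv⟩ : LinearMap.ker l) ∈ Submodule.span R (Set.range B) := by
      rw [B.span_eq]
      trivial
    have h2 := Submodule.mem_map_of_mem (f := (LinearMap.ker l).subtype) h1
    rw [Submodule.map_span, ← Set.range_comp] at h2
    exact h2
  -- the determinant as a linear form
  let Δ : (Fin (b + 1) → R) → R := fun v =>
    Matrix.det (Matrix.of (Fin.snoc z v : Fin (b + 1) → Fin (b + 1) → R))
  have hupd : ∀ v w : Fin (b + 1) → R, (Fin.snoc z w : Fin (b + 1) → Fin (b + 1) → R) =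
      Function.update (Fin.snoc z v : Fin (b + 1) → Fin (b + 1) → R) (Fin.last b) w := by
    intro v w
    funext i
    refine Fin.lastCases ?_ (fun j => ?_) i
    · rw [Fin.snoc_last, Function.update_self]
    · rw [Fin.snoc_castSucc, Function.update_of_ne (Fin.castSucc_lt_last j).ne,
        Fin.snoc_castSucc]
  have hadd : ∀ v w, Δ (v + w) = Δ v + Δ w := by
    intro v w
    change Matrix.detRowAlternating (Fin.snoc z (v + w) : Fin (b + 1) → Fin (b + 1) → R) =
      Matrix.detRowAlternating (Fin.snoc z v : Fin (b + 1) → Fin (b + 1) → R) +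
      Matrix.detRowAlternating (Fin.snoc z w : Fin (b + 1) → Fin (b + 1) → R)
    rw [hupd 0 (v + w), hupd 0 v, hupd 0 w, AlternatingMap.map_update_add]
  have hsmul : ∀ (c : R) v, Δ (c • v) = c * Δ v := by
    intro c v
    change Matrix.detRowAlternating (Fin.snoc z (c • v) : Fin (b + 1) → Fin (b + 1) → R) =
      c * Matrix.detRowAlternating (Fin.snoc z v : Fin (b + 1) → Fin (b + 1) → R)
    rw [hupd 0 (c • v), hupd 0 v, AlternatingMap.map_update_smul, smul_eq_mul]
  let D : (Fin (b + 1) → R) →ₗ[R] R :=
    { toFun := Δ, map_add' := hadd, map_smul' := fun c v => hsmul c v }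
  have hDz : ∀ j, D (z j) = 0 := by
    intro j
    change Matrix.detRowAlternating (Fin.snoc z (z j) : Fin (b + 1) → Fin (b + 1) → R) = 0
    refine AlternatingMap.map_eq_zero_of_eq _ _ (i := j.castSucc) (j := Fin.last b) ?_
      (Fin.castSucc_lt_last j).ne
    rw [Fin.snoc_castSucc, Fin.snoc_last]
  have hDker : ∀ v, l v = 0 → D v = 0 := by
    intro v hv
    have h1 : Submodule.span R (Set.range z) ≤ LinearMap.ker D := by
      rw [Submodule.span_le]
      rintro _ ⟨j, rfl⟩
      exact hDz j
    exact h1 (hspan v hv)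
  obtain ⟨s, hs⟩ := hx
  obtain ⟨s', hs'⟩ := hy
  have key : ∀ (c : R) (t : Fin (b + 1) → R), l t = c → ∀ v, c * D v = l v * D t := by
    intro c t ht v
    have h1 : D (c • v - l v • t) = 0 := hDker _ (by
      rw [map_sub, map_smul, map_smul, ht, smul_eq_mul, smul_eq_mul, mul_comm, sub_self])
    rw [map_sub, map_smul, map_smul, smul_eq_mul, smul_eq_mul, sub_eq_zero] at h1
    exact h1
  obtain ⟨β, hβ⟩ : x ^ N ∣ D s := by
    refine h.dvd_of_dvd_mul (m := N) ⟨D s', ?_⟩
    have h1 := key _ s hs s'
    rw [hs'] at h1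
    exact h1.symm
  have hD : ∀ v, D v = β * l v := by
    intro v
    have h1 := key _ s hs v
    rw [hβ] at h1
    apply mul_left_cancel₀ hx0
    rw [h1]
    ring
  -- `β` is a unit
  have hdvd : ∀ (c : R) (t : Fin (b + 1) → R), l t = c → β ∣ c ^ (b + 1) := by
    intro c t ht
    -- a matrix `A` with `A * M = c`
    have h1 : ∀ i : Fin (b + 1), ∃ a : Fin (b + 1) → R,
        ∑ k, a k • (Fin.snoc z t : Fin (b + 1) → Fin (b + 1) → R) k = c • Pi.single i 1 := by
      intro i
      have h2 : l (c • (Pi.single i 1 : Fin (b + 1) → R) - l (Pi.single i 1) • t) = 0 := by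
        rw [map_sub, map_smul, map_smul, ht, smul_eq_mul, smul_eq_mul, mul_comm, sub_self]
      obtain ⟨a, ha⟩ := (Submodule.mem_span_range_iff_exists_fun R).1 (hspan _ h2)
      refine ⟨Fin.snoc a (l (Pi.single i 1)), ?_⟩
      rw [Fin.sum_univ_castSucc]
      simp only [Fin.snoc_castSucc, Fin.snoc_last]
      rw [ha]
      abel
    choose a ha using h1
    have h2 : Matrix.of a * Matrix.of (Fin.snoc z t : Fin (b + 1) → Fin (b + 1) → R) =
        c • (1 : Matrix (Fin (b + 1)) (Fin (b + 1)) R) := by
      ext i j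
      have h3 := congrFun (ha i) j
      rw [Matrix.mul_apply, Matrix.smul_apply, Matrix.one_apply]
      rw [Finset.sum_apply] at h3
      simp only [Pi.smul_apply, smul_eq_mul, Matrix.of_apply] at h3 ⊢
      rw [h3, Pi.single_apply]
      simp only [eq_comm]
    have h3 := congrArg Matrix.det h2
    rw [Matrix.det_mul, Matrix.det_smul, Matrix.det_one, mul_one, Fintype.card_fin] at h3
    have h4 : Matrix.det (Matrix.of (Fin.snoc z t : Fin (b + 1) → Fin (b + 1) → R)) = β * l t :=
      hD t
    rw [h4] at h3
    exact ⟨Matrix.det (Matrix.of a) * l t, by rw [← h3]; ring⟩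
  refine ⟨z, β, ?_, hz, hspan, hD⟩
  have h1 := hdvd _ s hs
  have h2 := hdvd _ s' hs'
  rw [← pow_mul] at h1 h2
  exact h.isUnit_of_dvd h1 h2

end Two

end Pool.Agent.QU62
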