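import Mathlib

/-!
# Lengths of quotients
-/

set_option autoImplicit false

namespace Pool.Agent.QU52

variable {K : Type*} [CommRing K]

/-- The cokernel of a pair of maps. -/
theorem len_prod {M A B : Type*} [AddCommGroup M] [Module K M] [AddCommGroup A] [Module K A]
    [AddCommGroup B] [Module K B] (f : M →ₗ[K] A) (g : M →ₗ[K] B) :
    Module.length K ((A × B) ⧸ LinearMap.range (f.prod g)) =
      Module.length K (B ⧸ LinearMap.range g) +
        Module.length K (A ⧸ (LinearMap.ker g).map f) := by
  -- the inclusion of the cokernel of `f` on the kernel of `g`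
  let i : (A ⧸ (LinearMap.ker g).map f) →ₗ[K] ((A × B) ⧸ LinearMap.range (f.prod g)) :=
    Submodule.mapQ _ _ (LinearMap.inl K A B) (by
      rw [Submodule.map_le_iff_le_comap]
      intro m hm
      exact ⟨m, Prod.ext rfl (LinearMap.mem_ker.1 hm)⟩)
  let p : ((A × B) ⧸ LinearMap.range (f.prod g)) →ₗ[K] (B ⧸ LinearMap.range g) :=
    Submodule.mapQ _ _ (LinearMap.snd K A B) (by
      rintro _ ⟨m, rfl⟩
      exact ⟨m, rfl⟩)
  have hi : Function.Injective i := by
    rw [← LinearMap.ker_eq_bot, eq_bot_iff]
    intro a ha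
    obtain ⟨a, rfl⟩ := Submodule.Quotient.mk_surjective _ a
    have h1 : (Submodule.Quotient.mk ((a, 0) : A × B) :
        (A × B) ⧸ LinearMap.range (f.prod g)) = 0 := ha
    rw [Submodule.Quotient.mk_eq_zero] at h1
    obtain ⟨m, hm⟩ := h1
    have h2 : f m = a := congrArg Prod.fst hm
    have h3 : g m = 0 := congrArg Prod.snd hm
    rw [Submodule.mem_bot, Submodule.Quotient.mk_eq_zero]
    exact ⟨m, h3, h2⟩
  have hp : Function.Surjective p := by
    intro b
    obtain ⟨b, rfl⟩ := Submodule.Quotient.mk_surjective _ b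
    exact ⟨Submodule.Quotient.mk ((0, b) : A × B), rfl⟩
  have hex : Function.Exact i p := by
    intro q
    obtain ⟨⟨a, b⟩, rfl⟩ := Submodule.Quotient.mk_surjective _ q
    constructor
    · intro h
      have h1 : (Submodule.Quotient.mk b : B ⧸ LinearMap.range g) = 0 := h
      rw [Submodule.Quotient.mk_eq_zero] at h1
      obtain ⟨m, hm⟩ := h1
      refine ⟨Submodule.Quotient.mk (a - f m), ?_⟩
      have h2 : i (Submodule.Quotient.mk (a - f m)) =
          Submodule.Quotient.mk ((a - f m, 0) : A × B) := rfl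
      rw [h2, Submodule.Quotient.eq]
      refine ⟨-m, Prod.ext ?_ ?_⟩
      · change f (-m) = a - f m - a
        rw [map_neg]
        abel
      · change g (-m) = 0 - b
        rw [map_neg, hm, zero_sub]
    · rintro ⟨c, hc⟩
      obtain ⟨c, rfl⟩ := Submodule.Quotient.mk_surjective _ c
      rw [← hc]
      have h2 : p (i (Submodule.Quotient.mk c)) = Submodule.Quotient.mk (0 : B) := rfl
      rw [h2, Submodule.Quotient.mk_zero]
  rw [Module.length_eq_add_of_exact i p hi hp hex, add_comm]

/-- A quotient of the middle term of an exact sequence. -/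
theorem len_mid {G F A : Type*} [AddCommGroup G] [Module K G] [AddCommGroup F] [Module K F]
    [AddCommGroup A] [Module K A] (i : G →ₗ[K] F) (q : F →ₗ[K] A) (_hi : Function.Injective i)
    (hex : ∀ f, q f = 0 ↔ ∃ g, i g = f) (X : Submodule K F) :
    Module.length K (F ⧸ X) = Module.length K (G ⧸ X.comap i) +
      Module.length K (LinearMap.range q ⧸ (X.map q).submoduleOf (LinearMap.range q)) := by
  let j : (G ⧸ X.comap i) →ₗ[K] (F ⧸ X) := Submodule.mapQ _ _ i le_rfl
  let p : (F ⧸ X) →ₗ[K] (LinearMap.range q ⧸ (X.map q).submoduleOf (LinearMap.range q)) :=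
    Submodule.mapQ _ _ q.rangeRestrict (by
      intro f hf
      exact ⟨f, hf, rfl⟩)
  have hj : Function.Injective j := by
    rw [← LinearMap.ker_eq_bot, eq_bot_iff]
    intro a ha
    obtain ⟨a, rfl⟩ := Submodule.Quotient.mk_surjective _ a
    have h1 : (Submodule.Quotient.mk (i a) : F ⧸ X) = 0 := ha
    rw [Submodule.Quotient.mk_eq_zero] at h1
    rw [Submodule.mem_bot, Submodule.Quotient.mk_eq_zero]
    exact h1
  have hp : Function.Surjective p := by
    intro b
    obtain ⟨⟨b, f, rfl⟩, rfl⟩ := Submodule.Quotient.mk_surjective _ b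
    exact ⟨Submodule.Quotient.mk f, rfl⟩
  have hexact : Function.Exact j p := by
    intro f
    obtain ⟨f, rfl⟩ := Submodule.Quotient.mk_surjective _ f
    constructor
    · intro h
      have h1 : (Submodule.Quotient.mk (q.rangeRestrict f) :
        LinearMap.range q ⧸ (X.map q).submoduleOf (LinearMap.range q)) = 0 := h
      rw [Submodule.Quotient.mk_eq_zero] at h1
      obtain ⟨x, hx, hxf⟩ := h1
      have h2 : q (f - x) = 0 := by
        rw [map_sub, sub_eq_zero]
        exact hxf.symm
      obtain ⟨g, hg⟩ := (hex _).1 h2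
      refine ⟨Submodule.Quotient.mk g, ?_⟩
      have h3 : j (Submodule.Quotient.mk g) = Submodule.Quotient.mk (i g) := rfl
      rw [h3, hg, Submodule.Quotient.eq]
      have h4 : f - x - f = -x := by abel
      rw [h4]
      exact X.neg_mem hx
    · rintro ⟨c, hc⟩
      obtain ⟨c, rfl⟩ := Submodule.Quotient.mk_surjective _ c
      rw [← hc]
      have h2 : p (j (Submodule.Quotient.mk c)) =
          Submodule.Quotient.mk (q.rangeRestrict (i c)) := rfl
      rw [h2, Submodule.Quotient.mk_eq_zero]
      have h3 : q.rangeRestrict (i c) = 0 := Subtype.ext ((hex _).2 ⟨c, rfl⟩)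
      rw [h3]
      exact Submodule.zero_mem _
  rw [Module.length_eq_add_of_exact j p hj hp hexact]

/-- The third isomorphism theorem for lengths. -/
theorem len_tower {A : Type*} [AddCommGroup A] [Module K A] (J J2 : Submodule K A) (h : J ≤ J2) :
    Module.length K (A ⧸ J) =
      Module.length K (J2 ⧸ J.submoduleOf J2) + Module.length K (A ⧸ J2) := by
  have h1 := len_mid (K := K) J2.subtype J2.mkQ (Submodule.injective_subtype _) (by
    intro f
    rw [Submodule.mkQ_apply, Submodule.Quotient.mk_eq_zero]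
    constructor
    · intro hf
      exact ⟨⟨f, hf⟩, rfl⟩
    · rintro ⟨g, rfl⟩
      exact g.2) J
  rw [h1]
  congr 1
  have h2 : J.map J2.mkQ = ⊥ := by
    rw [eq_bot_iff]
    rintro _ ⟨a, ha, rfl⟩
    rw [Submodule.mem_bot, Submodule.mkQ_apply, Submodule.Quotient.mk_eq_zero]
    exact h ha
  have h3 : LinearMap.range J2.mkQ = ⊤ := Submodule.range_mkQ _
  refine LinearEquiv.length_eq ?_
  refine (Submodule.quotEquivOfEqBot _ ?_).trans (LinearEquiv.ofTop _ h3)
  rw [h2, Submodule.submoduleOf, Submodule.comap_bot, Submodule.ker_subtype]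

/-- A proper submodule containing `J` has smaller colength of `J`. -/
theorem len_lt {A : Type*} [AddCommGroup A] [Module K A] (J J2 : Submodule K A) (h : J ≤ J2)
    (hne : J2 ≠ ⊤) (hfin : Module.length K (A ⧸ J) ≠ ⊤) :
    Module.length K (J2 ⧸ J.submoduleOf J2) < Module.length K (A ⧸ J) := by
  rw [len_tower J J2 h] at hfin ⊢
  have h1 : Nontrivial (A ⧸ J2) := Submodule.Quotient.nontrivial_iff.2 hne
  have h2 : 0 < Module.length K (A ⧸ J2) := Module.length_pos
  have h3 : Module.length K (J2 ⧸ J.submoduleOf J2) ≠ ⊤ := fun h3 => hfin (by rw [h3, top_add])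
  calc Module.length K (J2 ⧸ J.submoduleOf J2)
      = Module.length K (J2 ⧸ J.submoduleOf J2) + 0 := (add_zero _).symm
    _ < _ := (ENat.add_lt_add_iff_left h3).2 h2

end Pool.Agent.QU52
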